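import Pool.Agent.Helper30.UP.St

/-! # Project UP, module D0: purification of flags -/

set_option autoImplicit false

noncomputable section

namespace Pool.Agent.Helper56.UP

open Finset Pool.Agent.Helper30.UP
open scoped Classical

theorem hD0 : StD0 := by
  intro K c k W Y hK
  obtain ⟨m, hm⟩ : ∃ m, (univ.filter (fun i => ¬ Y ≤ W i)).card = m := ⟨_, rfl⟩
  induction m using Nat.strong_induction_on generalizing Y with
  | _ m ih =>
    by_cases h : ∀ i, ¬ Y ≤ W i → 2 * K * Nat.card ↥(Y ⊓ W i) < Nat.card Y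
    · exact ⟨Y, le_rfl, Or.inl rfl, h, le_of_eq (mul_comm _ _)⟩
    · push Not at h
      obtain ⟨i, hi, hcard⟩ := h
      have hsub : (univ.filter (fun l => ¬ (Y ⊓ W i) ≤ W l)) ⊂ (univ.filter (fun l => ¬ Y ≤ W l)) := by
        refine Finset.ssubset_iff_of_subset ?_ |>.2 ⟨i, ?_, ?_⟩
        · intro l hl
          rw [mem_filter] at hl ⊢
          exact ⟨hl.1, fun hle => hl.2 (inf_le_left.trans hle)⟩
        · rw [mem_filter]
          exact ⟨mem_univ _, hi⟩
        · rw [mem_filter]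
          intro hh
          exact hh.2 inf_le_right
      have hlt := card_lt_card hsub
      obtain ⟨Z, hZ, _, h3, h4⟩ := ih _ (by rw [← hm]; exact hlt) (Y ⊓ W i) rfl
      refine ⟨Z, hZ.trans inf_le_left, Or.inr ⟨i, hi, hZ.trans inf_le_right⟩, h3, ?_⟩
      have h2K : 0 < 2 * K := by omega
      calc Nat.card Y * (2 * K) ^ (univ.filter (fun i => ¬ Z ≤ W i)).card
          ≤ (2 * K * Nat.card ↥(Y ⊓ W i)) * (2 * K) ^ (univ.filter (fun i => ¬ Z ≤ W i)).card :=
            Nat.mul_le_mul_right _ hcard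
        _ = 2 * K * (Nat.card ↥(Y ⊓ W i) * (2 * K) ^ (univ.filter (fun i => ¬ Z ≤ W i)).card) := by
            rw [mul_assoc]
        _ ≤ 2 * K * ((2 * K) ^ (univ.filter (fun l => ¬ (Y ⊓ W i) ≤ W l)).card * Nat.card Z) :=
            Nat.mul_le_mul_left _ h4
        _ = (2 * K) ^ ((univ.filter (fun l => ¬ (Y ⊓ W i) ≤ W l)).card + 1) * Nat.card Z := by
            rw [pow_succ]; ring
        _ ≤ (2 * K) ^ (univ.filter (fun l => ¬ Y ≤ W l)).card * Nat.card Z :=
            Nat.mul_le_mul_right _ (Nat.pow_le_pow_right h2K hlt)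

end Pool.Agent.Helper56.UP
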